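import Mathlib
import Pool.Agent.H55.PerfDef

namespace Pool.Agent.Results.MP_7acd66_nt.OddTerm

/-- The perfect deficiency: run through the divisors of `n` in increasing order, starting from
the remainder `n`, and subtract each divisor that does not exceed the current remainder. -/
def pd (n : ℕ) : ℕ :=
  ((Nat.divisors n).sort (· ≤ ·)).foldl (fun r d => if d ≤ r then r - d else r) n

/-- `n = 815634435` is odd, larger than `1155`, and has perfect deficiency `6`. -/
theorem result : ∃ n : ℕ, 1155 < n ∧ Odd n ∧ pd n ≤ 10 := by
  refine ⟨815634435, by norm_num, by decide +kernel, ?_⟩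
  unfold pd
  rw [Pool.Agent.H55.PerfDef.sorted]
  decide +kernel

end Pool.Agent.Results.MP_7acd66_nt.OddTerm
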